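import Pool.Agent.H19.N6.HT
import Pool.Agent.H62.N64F.Fin5
import Pool.Agent.H19.N64.A1
import Pool.Agent.H19.N64.A3

/-!
The Vinogradov system of degree four in six variables: `N_{6,4}(B) = 720 B ^ 6 + O(B ^ 5.995)` for
real `B ≥ 1`, and there are only `O(B ^ 5.995)` solutions which are not diagonal.
-/

set_option autoImplicit false

open Filter Topology

namespace Pool.Agent.Results.MP_4f0605_nt.PowerSaving

/-- The solutions counted by `N_{s,k}(B)`: pairs `(x, y)` of `s`-tuples of integers with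
`0 ≤ x_i ≤ B`, `0 ≤ y_i ≤ B` and `∑ x_i ^ j = ∑ y_i ^ j` for `1 ≤ j ≤ k`. -/
def Sol (s k : ℕ) (B : ℝ) : Set ((Fin s → ℤ) × (Fin s → ℤ)) :=
  {p | (∀ i, 0 ≤ p.1 i ∧ (p.1 i : ℝ) ≤ B) ∧ (∀ i, 0 ≤ p.2 i ∧ (p.2 i : ℝ) ≤ B) ∧
    ∀ j : ℕ, 1 ≤ j → j ≤ k → ∑ i, p.1 i ^ j = ∑ i, p.2 i ^ j}

/-- `N_{s,k}(B)`, the number of solutions. -/
noncomputable def N (s k : ℕ) (B : ℝ) : ℕ := (Sol s k B).ncard

/-- A pair `(x, y)` is diagonal if `y` is a permutation of `x`. -/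
def Diagonal {s : ℕ} (p : (Fin s → ℤ) × (Fin s → ℤ)) : Prop :=
  ∃ σ : Equiv.Perm (Fin s), ∀ i, p.2 i = p.1 (σ i)

open Pool.Agent.H19.N64

/-- natural numbers to integers, in both tuples -/
private def emb (s : ℕ) (q : (Fin s → ℕ) × (Fin s → ℕ)) : (Fin s → ℤ) × (Fin s → ℤ) :=
  (fun i => (q.1 i : ℤ), fun i => (q.2 i : ℤ))

private lemma emb_inj (s : ℕ) : Function.Injective (emb s) := by
  intro p q h
  simp only [emb, Prod.mk.injEq] at h
  obtain ⟨h1, h2⟩ := h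
  refine Prod.ext (funext fun i => ?_) (funext fun i => ?_)
  · exact_mod_cast congrFun h1 i
  · exact_mod_cast congrFun h2 i

private lemma sol_eq (s : ℕ) (B : ℝ) (hB : 0 ≤ B) :
    Sol s 4 B = emb s '' (solF s ⌊B⌋₊ : Set ((Fin s → ℕ) × (Fin s → ℕ))) := by
  ext p
  constructor
  · rintro ⟨h1, h2, h3⟩
    refine ⟨(fun i => (p.1 i).toNat, fun i => (p.2 i).toNat), ?_, ?_⟩
    · rw [Finset.mem_coe, mem_solF]
      refine ⟨⟨fun i => ?_, fun i => ?_⟩, fun j hj => ?_⟩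
      · rw [Nat.le_floor_iff hB]
        have h4 : (((p.1 i).toNat : ℤ) : ℝ) = (p.1 i : ℝ) := by rw [Int.toNat_of_nonneg (h1 i).1]
        have h5 : (((p.1 i).toNat : ℕ) : ℝ) = (p.1 i : ℝ) := by rw [← h4]; push_cast; rfl
        rw [h5]
        exact (h1 i).2
      · rw [Nat.le_floor_iff hB]
        have h4 : (((p.2 i).toNat : ℤ) : ℝ) = (p.2 i : ℝ) := by rw [Int.toNat_of_nonneg (h2 i).1]
        have h5 : (((p.2 i).toNat : ℕ) : ℝ) = (p.2 i : ℝ) := by rw [← h4]; push_cast; rfl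
        rw [h5]
        exact (h2 i).2
      · rw [Finset.mem_Icc] at hj
        have h4 := h3 j hj.1 hj.2
        have h5 : ((∑ i, (p.1 i).toNat ^ j : ℕ) : ℤ) = ((∑ i, (p.2 i).toNat ^ j : ℕ) : ℤ) := by
          have h6 : ∀ i, ((p.1 i).toNat : ℤ) = p.1 i := fun i => Int.toNat_of_nonneg (h1 i).1
          have h7 : ∀ i, ((p.2 i).toNat : ℤ) = p.2 i := fun i => Int.toNat_of_nonneg (h2 i).1
          rw [Nat.cast_sum, Nat.cast_sum]
          simp only [Nat.cast_pow, h6, h7]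
          exact h4
        exact_mod_cast h5
    · refine Prod.ext (funext fun i => ?_) (funext fun i => ?_)
      · exact Int.toNat_of_nonneg (h1 i).1
      · exact Int.toNat_of_nonneg (h2 i).1
  · rintro ⟨q, hq, rfl⟩
    rw [Finset.mem_coe, mem_solF] at hq
    obtain ⟨⟨h1, h2⟩, h3⟩ := hq
    refine ⟨fun i => ⟨?_, ?_⟩, fun i => ⟨?_, ?_⟩, fun j h4 h5 => ?_⟩
    · simp [emb]
    · have := (Nat.le_floor_iff hB).1 (h1 i)
      simpa [emb] using this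
    · simp [emb]
    · have := (Nat.le_floor_iff hB).1 (h2 i)
      simpa [emb] using this
    · have := h3 j (Finset.mem_Icc.2 ⟨h4, h5⟩)
      simp only [emb]
      exact_mod_cast this

private lemma diag_emb {s : ℕ} (q : (Fin s → ℕ) × (Fin s → ℕ)) : Diagonal (emb s q) ↔ Dg q := by
  constructor
  · rintro ⟨σ, h⟩
    refine ⟨σ, fun i => ?_⟩
    have := h i
    simp only [emb] at this
    exact_mod_cast this
  · rintro ⟨σ, h⟩
    refine ⟨σ, fun i => ?_⟩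
    simp only [emb, h i]

private lemma N_eq (B : ℝ) (hB : 0 ≤ B) : N 6 4 B = (solF 6 ⌊B⌋₊).card := by
  rw [N, sol_eq 6 B hB, Set.ncard_image_of_injective _ (emb_inj 6), Set.ncard_coe_finset]

private lemma nd_eq (B : ℝ) (hB : 0 ≤ B) :
    {p ∈ Sol 6 4 B | ¬ Diagonal p}.ncard = (ndF 6 ⌊B⌋₊).card := by
  have h : {p ∈ Sol 6 4 B | ¬ Diagonal p} =
      emb 6 '' (ndF 6 ⌊B⌋₊ : Set ((Fin 6 → ℕ) × (Fin 6 → ℕ))) := by
    ext p
    rw [sol_eq 6 B hB]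
    constructor
    · rintro ⟨⟨q, hq, rfl⟩, h2⟩
      refine ⟨q, ?_, rfl⟩
      rw [Finset.mem_coe, mem_ndF]
      exact ⟨hq, fun h => h2 ((diag_emb q).2 h)⟩
    · rintro ⟨q, hq, rfl⟩
      rw [Finset.mem_coe, mem_ndF] at hq
      exact ⟨⟨q, hq.1, rfl⟩, fun h => hq.2 ((diag_emb q).1 h)⟩
  rw [h, Set.ncard_image_of_injective _ (emb_inj 6), Set.ncard_coe_finset]

private lemma nd_bound : ∃ C : ℝ, 0 ≤ C ∧ ∀ n : ℕ, 1 ≤ n →
    ((ndF 6 n).card : ℝ) ≤ C * (n : ℝ) ^ (5.995 : ℝ) := by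
  obtain ⟨C, hC⟩ := ad_of_hypT Pool.Agent.H19.N6.hypT
  obtain ⟨C', hC'⟩ := Pool.Agent.H62.N64F.ad5_bound
  refine ⟨|C| + 72 * |C'|, by positivity, fun n hn => ?_⟩
  have hn1 : (1 : ℝ) ≤ n := by exact_mod_cast hn
  have hn0 : (0 : ℝ) < n := by linarith
  have e1 : ((ndF 6 n).card : ℝ) ≤ ((adF 6 n).card : ℝ) +
      36 * ((n : ℝ) + 1) * ((ndF 5 n).card : ℝ) := by exact_mod_cast nd6_le n
  have e2 : ((ndF 5 n).card : ℝ) ≤ ((adF 5 n).card : ℝ) := by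
    exact_mod_cast Finset.card_le_card (nd5_sub n)
  have e3 : ((adF 6 n).card : ℝ) ≤ |C| * (n : ℝ) ^ (5.995 : ℝ) :=
    (hC n hn).trans (mul_le_mul_of_nonneg_right (le_abs_self C) (Real.rpow_nonneg hn0.le _))
  have e4 : ((adF 5 n).card : ℝ) ≤ |C'| * (n : ℝ) ^ (5 - 1 / 7 : ℝ) :=
    (hC' n hn).trans (mul_le_mul_of_nonneg_right (le_abs_self C') (Real.rpow_nonneg hn0.le _))
  have e5 : 36 * ((n : ℝ) + 1) * ((ndF 5 n).card : ℝ) ≤
      72 * n * (|C'| * (n : ℝ) ^ (5 - 1 / 7 : ℝ)) := by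
    have h1 : 36 * ((n : ℝ) + 1) ≤ 72 * n := by linarith
    exact mul_le_mul h1 (e2.trans e4) (Nat.cast_nonneg _) (by positivity)
  have e6 : (n : ℝ) * (n : ℝ) ^ (5 - 1 / 7 : ℝ) ≤ (n : ℝ) ^ (5.995 : ℝ) := by
    have h1 : (n : ℝ) * (n : ℝ) ^ (5 - 1 / 7 : ℝ) = (n : ℝ) ^ (1 + (5 - 1 / 7) : ℝ) := by
      rw [Real.rpow_add hn0, Real.rpow_one]
    rw [h1]
    exact Real.rpow_le_rpow_of_exponent_le hn1 (by norm_num)
  have e7 : 72 * n * (|C'| * (n : ℝ) ^ (5 - 1 / 7 : ℝ)) ≤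
      72 * |C'| * (n : ℝ) ^ (5.995 : ℝ) := by
    have h1 : 72 * n * (|C'| * (n : ℝ) ^ (5 - 1 / 7 : ℝ)) =
        72 * |C'| * ((n : ℝ) * (n : ℝ) ^ (5 - 1 / 7 : ℝ)) := by ring
    rw [h1]
    exact mul_le_mul_of_nonneg_left e6 (by positivity)
  nlinarith

private lemma dg_upper (n : ℕ) : (dgF 6 n).card ≤ 720 * (n + 1) ^ 6 := by
  classical
  have h : dgF 6 n ⊆ ((Fintype.piFinset fun _ : Fin 6 => Finset.range (n + 1)) ×ˢ
      (Finset.univ : Finset (Equiv.Perm (Fin 6)))).image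
      (fun q => ((q.1, fun i => q.1 (q.2 i)) : (Fin 6 → ℕ) × (Fin 6 → ℕ))) := by
    intro p hp
    rw [mem_dgF] at hp
    obtain ⟨h1, σ, hσ⟩ := hp
    rw [mem_solF] at h1
    rw [Finset.mem_image]
    refine ⟨(p.1, σ), ?_, ?_⟩
    · rw [Finset.mem_product]
      refine ⟨?_, Finset.mem_univ _⟩
      rw [Fintype.mem_piFinset]
      intro i
      rw [Finset.mem_range]
      have := h1.1.1 i
      simp only
      omega
    · refine Prod.ext rfl ?_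
      funext i
      exact (hσ i).symm
  refine (Finset.card_le_card h).trans (Finset.card_image_le.trans ?_)
  rw [Finset.card_product, Fintype.card_piFinset]
  simp only [Finset.card_range, Finset.prod_const, Finset.card_univ, Fintype.card_fin,
    Fintype.card_perm]
  rw [mul_comm]
  exact le_of_eq rfl

private lemma dg_lower (n : ℕ) : 720 * (n - 4) ^ 6 ≤ (dgF 6 n).card := by
  classical
  have hcard : Fintype.card ((Fin 6 ↪ Fin (n + 1)) × Equiv.Perm (Fin 6))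
      = 720 * (n + 1).descFactorial 6 := by
    rw [Fintype.card_prod, Fintype.card_embedding_eq, Fintype.card_perm]
    simp only [Fintype.card_fin]
    rw [mul_comm]
    rfl
  have h1 : 720 * (n - 4) ^ 6 ≤ 720 * (n + 1).descFactorial 6 := by
    refine Nat.mul_le_mul_left _ ?_
    have := Nat.pow_sub_le_descFactorial (n + 1) 6
    have e : n + 1 + 1 - 6 = n - 4 := by omega
    rwa [e] at this
  refine h1.trans ?_
  rw [← hcard, ← Finset.card_univ]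
  refine Finset.card_le_card_of_injOn
    (fun q => ((fun i => (q.1 i : ℕ), fun i => (q.1 (q.2 i) : ℕ)) :
      (Fin 6 → ℕ) × (Fin 6 → ℕ))) ?_ ?_
  · rintro ⟨f, σ⟩ _
    simp only [Finset.mem_coe]
    rw [mem_dgF, mem_solF]
    refine ⟨⟨⟨fun i => ?_, fun i => ?_⟩, ?_⟩, σ, fun i => rfl⟩
    · have := (f i).2
      simp only
      omega
    · have := (f (σ i)).2
      simp only
      omega
    · intro j _
      exact (Equiv.sum_comp σ (fun i => (f i : ℕ) ^ j)).symm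
  · rintro ⟨f, σ⟩ _ ⟨g, τ⟩ _ h
    simp only [Prod.mk.injEq] at h
    obtain ⟨h1, h2⟩ := h
    have hfg : f = g := by
      ext i
      exact congrFun h1 i
    subst hfg
    have hστ : σ = τ := by
      ext i
      have := congrFun h2 i
      have h3 : f (σ i) = f (τ i) := Fin.ext this
      have := f.injective h3
      rw [this]
    subst hστ
    rfl

/-- `(B+1)^6 - B^6 <= 63 B^5` for `B >= 1` and `B^6 - (B-5)^6 <= 63 B^5` for `B >= 5` -/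
private lemma dg_diff (B : ℝ) (hB : 1 ≤ B) :
    |((dgF 6 ⌊B⌋₊).card : ℝ) - 720 * B ^ 6| ≤ 45360 * B ^ 5 := by
  have hf1 : (⌊B⌋₊ : ℝ) ≤ B := Nat.floor_le (by linarith)
  have hf2 : B < ⌊B⌋₊ + 1 := Nat.lt_floor_add_one B
  have hB0 : 0 < B := by linarith
  have hu : ((dgF 6 ⌊B⌋₊).card : ℝ) ≤ 720 * (B + 1) ^ 6 := by
    have h1 : ((dgF 6 ⌊B⌋₊).card : ℝ) ≤ 720 * ((⌊B⌋₊ : ℝ) + 1) ^ 6 := by
      exact_mod_cast dg_upper ⌊B⌋₊
    refine h1.trans ?_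
    have h2 : ((⌊B⌋₊ : ℝ) + 1) ^ 6 ≤ (B + 1) ^ 6 := pow_le_pow_left₀ (by positivity) (by linarith) 6
    linarith
  have hu2 : (B + 1) ^ 6 ≤ B ^ 6 + 63 * B ^ 5 := by
    have h1 : B ^ 4 ≤ B ^ 5 := pow_le_pow_right₀ hB (by norm_num)
    have h2 : B ^ 3 ≤ B ^ 5 := pow_le_pow_right₀ hB (by norm_num)
    have h3 : B ^ 2 ≤ B ^ 5 := pow_le_pow_right₀ hB (by norm_num)
    have h4 : B ≤ B ^ 5 := by simpa using pow_le_pow_right₀ hB (show 1 ≤ 5 by norm_num)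
    have h5 : 1 ≤ B ^ 5 := one_le_pow₀ hB
    nlinarith
  have hl : 720 * B ^ 6 - 45360 * B ^ 5 ≤ ((dgF 6 ⌊B⌋₊).card : ℝ) := by
    rcases le_total B 5 with h5 | h5
    · have h1 : B ^ 6 ≤ 5 * B ^ 5 := by
        have : B ^ 6 = B * B ^ 5 := by ring
        rw [this]
        exact mul_le_mul_of_nonneg_right h5 (by positivity)
      have h2 : (0 : ℝ) ≤ ((dgF 6 ⌊B⌋₊).card : ℝ) := Nat.cast_nonneg _
      have h3 : 0 < B ^ 5 := by positivity
      linarith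
    · have h4 : 4 ≤ ⌊B⌋₊ := by
        have : (4 : ℝ) < ⌊B⌋₊ + 1 := by linarith
        have h6 : (4 : ℝ) < ((⌊B⌋₊ + 1 : ℕ) : ℝ) := by push_cast; exact this
        have h7 : 4 < ⌊B⌋₊ + 1 := by exact_mod_cast h6
        omega
      have h1 : 720 * ((⌊B⌋₊ : ℝ) - 4) ^ 6 ≤ ((dgF 6 ⌊B⌋₊).card : ℝ) := by
        have := dg_lower ⌊B⌋₊
        have h8 : ((720 * (⌊B⌋₊ - 4) ^ 6 : ℕ) : ℝ) ≤ ((dgF 6 ⌊B⌋₊).card : ℝ) := by
          exact_mod_cast this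
        push_cast [Nat.cast_sub h4] at h8
        exact h8
      have h2 : (B - 5) ^ 6 ≤ ((⌊B⌋₊ : ℝ) - 4) ^ 6 :=
        pow_le_pow_left₀ (by linarith) (by linarith) 6
      have h3 : B ^ 6 - 63 * B ^ 5 ≤ (B - 5) ^ 6 := by
        set t : ℝ := B - 5 with ht
        have ht0 : 0 ≤ t := by linarith
        have hBt : B = t + 5 := by linarith
        rw [hBt]
        have : (t + 5) ^ 6 - 63 * (t + 5) ^ 5 = (t + 5) ^ 5 * (t - 58) := by ring
        rw [this]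
        have h9 : 0 ≤ t ^ 5 := by positivity
        have h10 : 0 ≤ t ^ 4 := by positivity
        have h11 : 0 ≤ t ^ 3 := by positivity
        have h12 : 0 ≤ t ^ 2 := by positivity
        have h13 : t ^ 6 - (t + 5) ^ 5 * (t - 58) =
          33 * t ^ 5 + 1200 * t ^ 4 + 13250 * t ^ 3 + 69375 * t ^ 2 + 178125 * t + 181250 := by
          ring
        nlinarith
      linarith
  rw [abs_le]
  constructor
  · linarith
  · have : (720 : ℝ) * (B + 1) ^ 6 ≤ 720 * (B ^ 6 + 63 * B ^ 5) := by linarith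
    linarith

private lemma main_bound : ∃ C : ℝ, 0 ≤ C ∧ ∀ B : ℝ, 1 ≤ B →
    |(N 6 4 B : ℝ) - 720 * B ^ 6| ≤ C * B ^ (5.995 : ℝ) := by
  obtain ⟨C, hC0, hC⟩ := nd_bound
  refine ⟨C + 45360, by positivity, fun B hB => ?_⟩
  have hf0 : 1 ≤ ⌊B⌋₊ := (Nat.one_le_floor_iff B).2 hB
  have hf1 : (⌊B⌋₊ : ℝ) ≤ B := Nat.floor_le (by linarith)
  have h1 := hC ⌊B⌋₊ hf0
  have h2 : (⌊B⌋₊ : ℝ) ^ (5.995 : ℝ) ≤ B ^ (5.995 : ℝ) :=
    Real.rpow_le_rpow (Nat.cast_nonneg _) hf1 (by norm_num)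
  have h3 := dg_diff B hB
  have h4 : B ^ 5 ≤ B ^ (5.995 : ℝ) := by
    have h5 : B ^ 5 = B ^ (5 : ℝ) := by rw [← Real.rpow_natCast]; norm_num
    rw [h5]
    exact Real.rpow_le_rpow_of_exponent_le hB (by norm_num)
  have h6 : (N 6 4 B : ℝ) = ((dgF 6 ⌊B⌋₊).card : ℝ) + ((ndF 6 ⌊B⌋₊).card : ℝ) := by
    rw [N_eq B (by linarith), card_solF]
    push_cast
    ring
  have h7 : C * (⌊B⌋₊ : ℝ) ^ (5.995 : ℝ) ≤ C * B ^ (5.995 : ℝ) :=
    mul_le_mul_of_nonneg_left h2 hC0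
  have h8 : (0 : ℝ) ≤ ((ndF 6 ⌊B⌋₊).card : ℝ) := Nat.cast_nonneg _
  rw [abs_le] at h3 ⊢
  rw [h6]
  constructor
  · nlinarith [h3.1]
  · nlinarith [h3.2]

/-- **Main result.** For real `B ≥ 1` the number of non-diagonal solutions counted by
`N_{6,4}(B)` is `O(B ^ 5.995)`, `N_{6,4}(B) = 720 B ^ 6 + O(B ^ 5.995)`, and hence
`N_{6,4}(B) / B ^ 6` tends to `720 = 6!`. -/
theorem result :
    (∃ C : ℝ, ∀ B : ℝ, 1 ≤ B →
      ({p ∈ Sol 6 4 B | ¬ Diagonal p}.ncard : ℝ) ≤ C * B ^ (5.995 : ℝ)) ∧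
    (∃ C : ℝ, ∀ B : ℝ, 1 ≤ B → |(N 6 4 B : ℝ) - 720 * B ^ 6| ≤ C * B ^ (5.995 : ℝ)) ∧
    Tendsto (fun B : ℝ => (N 6 4 B : ℝ) / B ^ 6) atTop (𝓝 720) := by
  refine ⟨?_, ?_, ?_⟩
  · obtain ⟨C, hC0, hC⟩ := nd_bound
    refine ⟨C, fun B hB => ?_⟩
    have hf0 : 1 ≤ ⌊B⌋₊ := (Nat.one_le_floor_iff B).2 hB
    have hf1 : (⌊B⌋₊ : ℝ) ≤ B := Nat.floor_le (by linarith)
    rw [nd_eq B (by linarith)]
    refine (hC ⌊B⌋₊ hf0).trans (mul_le_mul_of_nonneg_left ?_ hC0)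
    exact Real.rpow_le_rpow (Nat.cast_nonneg _) hf1 (by norm_num)
  · obtain ⟨C, _, hC⟩ := main_bound
    exact ⟨C, hC⟩
  · obtain ⟨C, hC0, hC⟩ := main_bound
    have hg : Tendsto (fun B : ℝ => C * B ^ (-(0.005 : ℝ))) atTop (𝓝 0) := by
      simpa using (tendsto_rpow_neg_atTop (show (0 : ℝ) < 0.005 by norm_num)).const_mul C
    rw [tendsto_iff_dist_tendsto_zero]
    refine squeeze_zero' (Eventually.of_forall fun B => dist_nonneg) ?_ hg
    filter_upwards [eventually_ge_atTop 1] with B hB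
    have hB0 : 0 < B := by linarith
    have h1 := hC B hB
    have h2 : (N 6 4 B : ℝ) / B ^ 6 - 720 = ((N 6 4 B : ℝ) - 720 * B ^ 6) / B ^ 6 := by
      field_simp
    rw [Real.dist_eq, h2, abs_div, abs_of_pos (show 0 < B ^ 6 by positivity),
      div_le_iff₀ (by positivity)]
    have h3 : C * B ^ (-(0.005 : ℝ)) * B ^ 6 = C * B ^ (5.995 : ℝ) := by
      have h4 : B ^ 6 = B ^ (6 : ℝ) := by rw [← Real.rpow_natCast]; norm_num
      rw [h4, mul_assoc, ← Real.rpow_add hB0]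
      norm_num
    rw [h3]
    exact h1

end Pool.Agent.Results.MP_4f0605_nt.PowerSaving
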